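import Pool.Agent.Lib.MP_391708_nt.X3.SpecO

/-!
# THEOREM X3, part O, module BXC: there are many boxes (from `XP.SpecBXC` by projection)
-/

set_option autoImplicit false

namespace Pool.Agent.Lib.MP391708.X3

open Finset Filter Topology Pool.Agent.Lib.MP391708.MR

namespace BXCM

/-- the fibres of the projection are short -/
lemma fib {N : ℝ} (hN : 3 ≤ N) (S : Finset (ℕ × ℕ × ℕ))
    (h : ∀ q ∈ S, N ^ (35 / 100 : ℝ) ≤ (2 : ℝ) ^ q.2.2 ∧ (2 : ℝ) ^ q.2.2 ≤ N ^ (45 / 100 : ℝ))
    (t : ℕ × ℕ) :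
    (((S.filter (fun q => (q.1, q.2.1) = t)).card : ℕ) : ℝ) ≤ Real.log N := by
  have hN0 : 0 < N := by linarith
  have hl : 0 < Real.log N := Real.log_pos (by linarith)
  have h1 : (S.filter (fun q => (q.1, q.2.1) = t)).card ≤ (Finset.Icc 1 ⌊Real.log N⌋₊).card := by
    apply Finset.card_le_card_of_injOn (fun q => q.2.2)
    · intro q hq
      have hq' := Finset.mem_filter.1 (Finset.mem_coe.1 hq)
      have h2 := h q hq'.1
      rw [Finset.mem_coe, Finset.mem_Icc]
      constructor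
      · show 1 ≤ q.2.2
        by_contra hc
        have h0 : q.2.2 = 0 := by omega
        have h3 := h2.1
        rw [h0, pow_zero] at h3
        have h4 : 1 < N ^ (35 / 100 : ℝ) := Real.one_lt_rpow (by linarith) (by norm_num)
        linarith
      · apply Nat.le_floor
        have h3 : Real.log ((2 : ℝ) ^ q.2.2) ≤ Real.log (N ^ (45 / 100 : ℝ)) :=
          Real.log_le_log (by positivity) h2.2
        rw [Real.log_pow, Real.log_rpow hN0] at h3
        have h5 : (0.6931471803 : ℝ) < Real.log 2 := Real.log_two_gt_d9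
        have h6 : (0 : ℝ) ≤ (q.2.2 : ℝ) := Nat.cast_nonneg _
        nlinarith
    · intro q hq q' hq' he
      have h2 := (Finset.mem_filter.1 (Finset.mem_coe.1 hq)).2
      have h3 := (Finset.mem_filter.1 (Finset.mem_coe.1 hq')).2
      rw [← h3, Prod.mk.injEq] at h2
      exact Prod.ext h2.1 (Prod.ext h2.2 he)
  rw [Nat.card_Icc] at h1
  calc (((S.filter (fun q => (q.1, q.2.1) = t)).card : ℕ) : ℝ) ≤ ((⌊Real.log N⌋₊ + 1 - 1 : ℕ) : ℝ) := by
        exact_mod_cast h1
    _ = (⌊Real.log N⌋₊ : ℝ) := by rw [Nat.add_sub_cancel]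
    _ ≤ Real.log N := Nat.floor_le hl.le

end BXCM

/-- BXC -/
theorem specBXC (hB : XP.SpecBXC) : SpecBXC := by
  classical
  intro δ cP cT cB hδ hδ1 hcP hcT hcB
  obtain ⟨c, cB', hc, hev⟩ := hB δ cP cT cB hδ hδ1 hcP hcT hcB
  refine ⟨c, cB', hc, ?_⟩
  filter_upwards [hev, eventually_ge_atTop 3] with N hN hN3 B hB1 hB2
  obtain ⟨S, hS1, hS2, hS3⟩ := hN B hB1 hB2
  have hl : 0 < Real.log N := Real.log_pos (by linarith)
  refine ⟨S.image (fun q => (q.1, q.2.1)), ?_, ?_, ?_⟩
  · intro t ht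
    obtain ⟨q, hq, rfl⟩ := Finset.mem_image.1 ht
    have h := hS1 q hq
    exact ⟨h.P1, h.P2, h.T1, h.T2, h.B1, h.B2⟩
  · refine le_trans ?_ hS2
    exact_mod_cast Finset.card_image_le
  · have h1 : ∑ q ∈ S, 1 / Real.log (2 ^ q.2.1) =
        ∑ t ∈ S.image (fun q => (q.1, q.2.1)),
          ∑ q ∈ S.filter (fun q => (q.1, q.2.1) = t), 1 / Real.log (2 ^ q.2.1) := by
      rw [Finset.sum_fiberwise_of_maps_to (fun q hq => Finset.mem_image_of_mem _ hq)]
    have h2 : ∀ t ∈ S.image (fun q => (q.1, q.2.1)),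
        ∑ q ∈ S.filter (fun q => (q.1, q.2.1) = t), 1 / Real.log (2 ^ q.2.1) ≤
          Real.log N * (1 / Real.log (2 ^ t.2)) := by
      intro t _
      rw [Finset.sum_congr rfl (g := fun _ => 1 / Real.log (2 ^ t.2)) (fun q hq => by
        rw [← (Finset.mem_filter.1 hq).2])]
      rw [Finset.sum_const, nsmul_eq_mul]
      apply mul_le_mul_of_nonneg_right
      · exact BXCM.fib hN3 S (fun q hq => ⟨(hS1 q hq).M1, (hS1 q hq).M2⟩) t
      · apply one_div_nonneg.2
        apply Real.log_nonneg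
        exact one_le_pow₀ (by norm_num)
    rw [h1] at hS3
    have h3 := hS3.trans (Finset.sum_le_sum h2)
    rw [← Finset.mul_sum] at h3
    have h4 : Real.log N * (c * Real.log B) ≤
        Real.log N * ∑ t ∈ S.image (fun q => (q.1, q.2.1)), 1 / Real.log (2 ^ t.2) := by
      calc Real.log N * (c * Real.log B) = c * (Real.log N * Real.log B) := by ring
        _ ≤ _ := h3
    exact le_of_mul_le_mul_left h4 hl

end Pool.Agent.Lib.MP391708.X3
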