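import Pool.Agent.Lib.MP_391708_nt.MR.Basic
import Pool.Agent.Lib.MP_391708_nt.X3.SpecO

/-!
# THEOREM X3, module CNB: from tuples of Gaussian primes to the numbers `n ^ 2 + b ^ 2`

The sum of `Eta` over the lines and over all the boxes counts each `1 ≤ n ≤ N` at most once, and only `n` for which
`n ^ 2 + b ^ 2` is a product of `k` different primes.
-/

set_option autoImplicit false

namespace Pool.Agent.Lib.MP391708.X3

open Finset Pool.Agent.Lib.MP391708.MR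
open Pool.Agent.Lib.MP391708.X (Ix lc On cnt PrK YOK)

namespace CNBM

/-- A local form of the conditions on `Y`: the norm is a product of `m` different primes, all at most `R`;
one of each class of associates. -/
structure YLK (m : ℕ) (R : ℝ) (Y : Finset Gi) : Prop where
  sq : ∀ y ∈ Y, Squarefree (nm y)
  card : ∀ y ∈ Y, (nm y).primeFactors.card = m
  le : ∀ y ∈ Y, (nm y : ℝ) ≤ R
  ass : ∀ y ∈ Y, ∀ y' ∈ Y, Associated y y' → y = y'

/-- The ranges of the norms. -/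
structure ROK (p : Par) (R P₁ L₁ : ℝ) : Prop where
  posN : 0 ≤ p.N
  posT : 0 < p.T
  posP : 0 < p.P
  r1 : R ≤ p.P
  r2 : 2 * p.P ≤ P₁
  r3 : P₁ * R ≤ p.K
  r4 : 2 * p.K ≤ L₁
  r5 : L₁ ≤ p.M2

lemma card_mul {a p k : ℕ} (ha : Squarefree a) (hk : a.primeFactors.card = k) (hp : p.Prime) (h : ¬ p ∣ a) :
    Squarefree (a * p) ∧ (a * p).primeFactors.card = k + 1 := by
  have hc : Nat.Coprime a p := (Nat.coprime_comm.1 ((Nat.Prime.coprime_iff_not_dvd hp).2 h))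
  refine ⟨(Nat.squarefree_mul hc).2 ⟨ha, hp.squarefree⟩, ?_⟩
  rw [hc.primeFactors_mul, card_union_of_disjoint hc.disjoint_primeFactors, hk, hp.primeFactors, card_singleton]

lemma nm_re_im {z : Gi} {b n : ℕ} (h1 : z.im = b) (h2 : z.re = n) : nm z = n ^ 2 + b ^ 2 := by
  have h := nm_cast z
  rw [h1, h2] at h
  exact_mod_cast h

/-- The tuples `(y, z₁, π₃, z, π₂)` which give `n + b i`. -/
structure Tup (p : Par) (Y : Finset Gi) (b : ℕ) (y z₁ π₃ z π₂ : Gi) : Prop where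
  hy : y ∈ Y
  h1 : z₁ ∈ GP (p.K / nm y) (2 * p.K / nm y)
  h3 : π₃ ∈ GP p.P (2 * p.P)
  h2 : π₂ ∈ GP p.M2 (2 * p.M2)
  as : Associated π₂ z
  im : (y * z₁ * π₃ * z).im = (b : ℤ)
  re : 0 < (y * z₁ * π₃ * z).re

lemma nm_ass {x y : Gi} (h : Associated x y) : nm x = nm y := by
  obtain ⟨u, hu⟩ := h
  rw [← hu, nm_mul, isUnit_iff_nm.1 u.isUnit, mul_one]

lemma dvd_GP {P P' Q Q' : ℝ} {z z' : Gi} (hz : z ∈ GP P P') (hz' : z' ∈ GP Q Q') (h : z ∣ z') : z = z' :=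
  (GP_eq_of_dvd hz hz' h).symm

lemma z1_gt {p : Par} {R P₁ L₁ : ℝ} {Y : Finset Gi} {m : ℕ} (hY : YLK m R Y) (hR : ROK p R P₁ L₁) {y : Gi}
    (hy : y ∈ Y) : P₁ ≤ p.K / nm y := by
  have hyp : 0 < (nm y : ℝ) := by exact_mod_cast Nat.pos_of_ne_zero (hY.sq y hy).ne_zero
  rw [le_div_iff₀ hyp]
  have hM2 : 0 ≤ P₁ := by
    linarith [hR.r2, hR.posP]
  exact (mul_le_mul_of_nonneg_left (hY.le y hy) hM2).trans hR.r3

lemma z1_le {p : Par} {R P₁ L₁ : ℝ} {Y : Finset Gi} {m : ℕ} (hY : YLK m R Y) (hR : ROK p R P₁ L₁) {y : Gi}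
    (hy : y ∈ Y) : 2 * p.K / nm y ≤ L₁ := by
  have hyp : 1 ≤ (nm y : ℝ) := by exact_mod_cast Nat.one_le_iff_ne_zero.2 (hY.sq y hy).ne_zero
  have hK : 0 ≤ p.K := div_nonneg hR.posN hR.posT.le
  exact (div_le_self (by linarith) hyp).trans hR.r4

/-- All the facts about one tuple. -/
lemma tup_facts (k b : ℕ) (hk : 3 ≤ k) (p : Par) (R P₁ L₁ : ℝ) (Y : Finset Gi) (hY : YLK (k - 3) R Y)
    (hR : ROK p R P₁ L₁) {y z₁ π₃ z π₂ : Gi} (t : Tup p Y b y z₁ π₃ z π₂) :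
    PrK k (nm (y * z₁ * π₃ * z)) ∧ (nm (y * z₁ * π₃ * z) : ℝ) ≤ p.N ^ 2 := by
  obtain ⟨hy, h1, h3, h2, as, him, hre⟩ := t
  have hz : nm z = nm π₂ := by rw [← nm_ass as]
  have e : nm (y * z₁ * π₃ * z) = nm y * nm π₃ * nm z₁ * nm π₂ := by
    rw [nm_mul, nm_mul, nm_mul, hz]; ring
  have P1 := (mem_GP.1 h1).2.2
  have P3 := (mem_GP.1 h3).2.2
  have P2 := (mem_GP.1 h2).2.2
  have hz1 := z1_gt hY hR hy
  have hz1' := z1_le hY hR hy
  have hr1 := hR.r1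
  have hr2 := hR.r2
  have hr5 := hR.r5
  have hP := hR.posP
  have ne : ∀ {a c : ℕ}, a.Prime → c.Prime → (c : ℝ) < a → ¬ a ∣ c := by
    intro a c ha hc hne hd
    have := (Nat.prime_dvd_prime_iff_eq ha hc).1 hd
    rw [this] at hne
    exact lt_irrefl _ hne
  have hy0 : nm y ≠ 0 := (hY.sq y hy).ne_zero
  have ny : ∀ {a : ℕ}, a.Prime → R < (a : ℝ) → ¬ a ∣ nm y := by
    intro a ha h5 hd
    have h6 := hY.le y hy
    have h7 : a ≤ nm y := Nat.le_of_dvd (Nat.pos_of_ne_zero hy0) hd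
    have h8 : (a : ℝ) ≤ nm y := by exact_mod_cast h7
    linarith
  have g3 : p.P < (nm π₃ : ℝ) := P3.2.2.1
  have g3' : (nm π₃ : ℝ) ≤ 2 * p.P := P3.2.2.2
  have g2 : p.M2 < (nm π₂ : ℝ) := P2.2.2.1
  have g2' : (nm π₂ : ℝ) ≤ 2 * p.M2 := P2.2.2.2
  have g1 : p.K / nm y < (nm z₁ : ℝ) := P1.2.2.1
  have g1' : (nm z₁ : ℝ) ≤ 2 * p.K / nm y := P1.2.2.2
  obtain ⟨s1, c1⟩ := card_mul (hY.sq y hy) (hY.card y hy) P3.1 (ny P3.1 (by linarith))
  obtain ⟨s2, c2⟩ := card_mul s1 c1 P1.1 (by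
    rw [P1.1.dvd_mul]
    exact not_or.2 ⟨ny P1.1 (by linarith), ne P1.1 P3.1 (by linarith)⟩)
  obtain ⟨s3, c3⟩ := card_mul s2 c2 P2.1 (by
    rw [P2.1.dvd_mul, P2.1.dvd_mul]
    exact not_or.2 ⟨not_or.2 ⟨ny P2.1 (by linarith), ne P2.1 P3.1 (by linarith)⟩,
      ne P2.1 P1.1 (by linarith)⟩)
  refine ⟨⟨by rw [e]; exact s3, by rw [e, c3]; omega⟩, ?_⟩
  rw [e]
  push_cast
  have hyp : 0 < (nm y : ℝ) := by
    positivity
  have h5 : (nm y : ℝ) * nm z₁ ≤ 2 * p.K := by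
    have := g1'
    rw [le_div_iff₀ hyp] at this
    linarith
  have hK : 0 ≤ p.K := div_nonneg hR.posN hR.posT.le
  calc (nm y : ℝ) * nm π₃ * nm z₁ * nm π₂ = (nm y * nm z₁) * nm π₃ * nm π₂ := by ring
    _ ≤ (2 * p.K) * (2 * p.P) * (2 * p.M2) :=
        mul_le_mul (mul_le_mul h5 g3' (by positivity) (by positivity)) g2' (by positivity) (by positivity)
    _ = p.N ^ 2 := by
        unfold Par.K Par.M2
        have h7 := hR.posT.ne'
        have h9 := hR.posP.ne'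
        field_simp
        ring

lemma tup_inj (m b : ℕ) (p p' : Par) (R P₁ L₁ : ℝ) (Y : Finset Gi) (hY : YLK m R Y)
    (hR : ROK p R P₁ L₁) (hR' : ROK p' R P₁ L₁) {y z₁ π₃ z π₂ : Gi} (t : Tup p Y b y z₁ π₃ z π₂)
    {y' z₁' π₃' z' π₂' : Gi} (t' : Tup p' Y b y' z₁' π₃' z' π₂')
    (h : (y * z₁ * π₃ * z).re = (y' * z₁' * π₃' * z').re) :
    y = y' ∧ z₁ = z₁' ∧ π₃ = π₃' ∧ z = z' ∧ π₂ = π₂' := by
  obtain ⟨hy, h1, h3, h2, as, him, hre⟩ := t
  obtain ⟨hy', h1', h3', h2', as', him', hre'⟩ := t'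
  have hzz : y * z₁ * π₃ * z = y' * z₁' * π₃' * z' := Zsqrtd.ext h (by rw [him, him'])
  have hz1 := z1_gt hY hR hy
  have hz1' := z1_gt hY hR' hy'
  have hz2 := z1_le hY hR hy
  have hz2' := z1_le hY hR' hy'
  have hr1 := hR.r1
  have hr2 := hR.r2
  have hr5 := hR.r5
  have hr1' := hR'.r1
  have hr2' := hR'.r2
  have hr5' := hR'.r5
  have hP := hR.posP
  have hP' := hR'.posP
  have a1 := (mem_GP.1 h1).2.2
  have a3 := (mem_GP.1 h3).2.2
  have a2 := (mem_GP.1 h2).2.2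
  have b1 := (mem_GP.1 h1').2.2
  have b3 := (mem_GP.1 h3').2.2
  have b2 := (mem_GP.1 h2').2.2
  have g3 : p.P < (nm π₃ : ℝ) := a3.2.2.1
  have g3' : (nm π₃ : ℝ) ≤ 2 * p.P := a3.2.2.2
  have g2 : p.M2 < (nm π₂ : ℝ) := a2.2.2.1
  have g1 : p.K / nm y < (nm z₁ : ℝ) := a1.2.2.1
  have g1' : (nm z₁ : ℝ) ≤ 2 * p.K / nm y := a1.2.2.2
  have k3 : p'.P < (nm π₃' : ℝ) := b3.2.2.1
  have k3' : (nm π₃' : ℝ) ≤ 2 * p'.P := b3.2.2.2
  have k2 : p'.M2 < (nm π₂' : ℝ) := b2.2.2.1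
  have k1 : p'.K / nm y' < (nm z₁' : ℝ) := b1.2.2.1
  have k1' : (nm z₁' : ℝ) ≤ 2 * p'.K / nm y' := b1.2.2.2
  -- a prime of a range divides the factor of the same range
  have key : ∀ x : Gi, Prime x → R < (nm x : ℝ) → (nm x).Prime → x ∣ y' * z₁' * π₃' * z' →
      x ∣ z₁' ∨ x ∣ π₃' ∨ x ∣ π₂' := by
    intro x hx hxR hxp hd
    rcases hx.dvd_or_dvd hd with hd | hd
    · rcases hx.dvd_or_dvd hd with hd | hd
      · rcases hx.dvd_or_dvd hd with hd | hd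
        · exfalso
          have h5 := hY.le y' hy'
          have h7 : nm x ≤ nm y' := Nat.le_of_dvd (Nat.pos_of_ne_zero (hY.sq y' hy').ne_zero) (nm_dvd hd)
          have h8 : (nm x : ℝ) ≤ nm y' := by exact_mod_cast h7
          linarith
        · exact Or.inl hd
      · exact Or.inr (Or.inl hd)
    · exact Or.inr (Or.inr (hd.trans as'.symm.dvd))
  have hs := as.dvd
  have cc : ∀ {x x' : Gi}, x = x' → (nm x : ℝ) = nm x' := fun h => by rw [h]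
  have e3 : π₃ = π₃' := by
    rcases key π₃ (GP_prime h3) (by linarith) a3.1
      (by rw [← hzz]; exact ⟨y * z₁ * z, by ring⟩) with h6 | h6 | h6
    · exfalso; have := cc (dvd_GP h3 h1' h6); linarith
    · exact dvd_GP h3 h3' h6
    · exfalso; have := cc (dvd_GP h3 h2' h6); linarith
  have e2 : π₂ = π₂' := by
    rcases key π₂ (GP_prime h2) (by linarith) a2.1
      (by rw [← hzz]; exact hs.trans ⟨y * z₁ * π₃, by ring⟩)
      with h6 | h6 | h6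
    · exfalso; have := cc (dvd_GP h2 h1' h6); linarith
    · exfalso; have := cc (dvd_GP h2 h3' h6); linarith
    · exact dvd_GP h2 h2' h6
  have e1 : z₁ = z₁' := by
    rcases key z₁ (GP_prime h1) (by linarith) a1.1
      (by rw [← hzz]; exact ⟨y * π₃ * z, by ring⟩) with h6 | h6 | h6
    · exact dvd_GP h1 h1' h6
    · exfalso; have := cc (dvd_GP h1 h3' h6); linarith
    · exfalso; have := cc (dvd_GP h1 h2' h6); linarith
  have hass : Associated z z' := by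
    rw [← e2] at as'
    exact as.symm.trans as'
  have h1n := GP_ne_zero h1
  have h3n := GP_ne_zero h3
  obtain ⟨u, hu⟩ := hass
  have hzn : z ≠ 0 := by
    intro h0
    rw [h0] at him hre
    simp at hre
  have hyy : y = y' * u := by
    rw [← e1, ← e3, ← hu] at hzz
    have h7 : (y - y' * u) * (z₁ * π₃ * z) = 0 := by linear_combination hzz
    rcases mul_eq_zero.1 h7 with h8 | h8
    · exact sub_eq_zero.1 h8
    · exact absurd h8 (mul_ne_zero (mul_ne_zero h1n h3n) hzn)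
  have ey : y = y' := hY.ass y hy y' hy' ⟨u⁻¹, by rw [hyy]; simp [mul_assoc]⟩
  refine ⟨ey, e1, e3, ?_, e2⟩
  rw [← ey, ← e1, ← e3] at hzz
  have hyn : y ≠ 0 := by
    intro h0
    have h9 := (hY.sq y hy).ne_zero
    rw [h0] at h9
    exact h9 nm_zero
  exact mul_left_cancel₀ (mul_ne_zero (mul_ne_zero hyn h1n) h3n) hzz

/-- a dyadic interval is determined by one of its points -/
lemma dy {x : ℝ} {i j : ℕ} (h1 : (2 : ℝ) ^ i < x) (h2 : x ≤ 2 * 2 ^ i) (h3 : (2 : ℝ) ^ j < x) (h4 : x ≤ 2 * 2 ^ j) :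
    i = j := by
  have h5 : (2 : ℝ) ^ i < 2 ^ (j + 1) := by
    rw [pow_succ]; linarith
  have h6 : (2 : ℝ) ^ j < 2 ^ (i + 1) := by
    rw [pow_succ]; linarith
  have h7 := (pow_lt_pow_iff_right₀ (by norm_num : (1 : ℝ) < 2)).1 h5
  have h8 := (pow_lt_pow_iff_right₀ (by norm_num : (1 : ℝ) < 2)).1 h6
  omega

open scoped Classical in
/-- the integer form of `Eta` -/
noncomputable def EtaN (p : Par) (z : Gi) : ℕ := ∑ v ∈ I2 p,
  ((cell p.h p.M2 (2 * p.M2) v).filter (fun π => Associated π z)).card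

lemma Eta_eq (p : Par) (z : Gi) : Eta p z = (EtaN p z : ℂ) := by
  unfold Eta eta EtaN
  push_cast
  rfl

/-- REP: the representations in all the boxes are counted by the numbers `n` for which `n ^ 2 + b ^ 2` is a product of
`k` different primes. -/
theorem rep (k b : ℕ) (hk : 3 ≤ k) (N ch cw R P₁ L₁ : ℝ) (hN : 0 < N) (Y : Finset Gi) (hY : YLK (k - 3) R Y)
    (B : Finset (ℕ × ℕ)) (hR : ∀ q ∈ B, ROK (bp N ch cw q) R P₁ L₁) :
    (∑ q ∈ B, ∑ y ∈ Y, sy (bp N ch cw q) y b (Eta (bp N ch cw q))).re ≤ (cnt k b N : ℝ) := by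
  classical
  have e1 : ∑ q ∈ B, ∑ y ∈ Y, sy (bp N ch cw q) y b (Eta (bp N ch cw q)) = ((∑ q ∈ B, ∑ y ∈ Y,
      ∑ z₁ ∈ GP ((bp N ch cw q).K / nm y) (2 * (bp N ch cw q).K / nm y),
      ∑ π ∈ GP (bp N ch cw q).P (2 * (bp N ch cw q).P),
        ∑ z ∈ (disc ((bp N ch cw q).N * (bp N ch cw q).T)).filter (On (y * z₁ * π) b),
          EtaN (bp N ch cw q) z : ℕ) : ℂ) := by
    unfold sy ls
    push_cast
    simp only [Eta_eq]
  rw [e1, Complex.natCast_re]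
  norm_cast
  set S : Finset (Σ _ : ℕ × ℕ, Σ _ : Gi, Σ _ : Gi, Σ _ : Gi, Σ _ : Gi, Σ _ : ℕ, Gi) :=
    B.sigma fun q => Y.sigma fun y =>
      (GP ((bp N ch cw q).K / nm y) (2 * (bp N ch cw q).K / nm y)).sigma fun z₁ =>
      (GP (bp N ch cw q).P (2 * (bp N ch cw q).P)).sigma fun π =>
      ((disc ((bp N ch cw q).N * (bp N ch cw q).T)).filter (On (y * z₁ * π) b)).sigma fun z =>
      (I2 (bp N ch cw q)).sigma fun v2 =>
        ((cell (bp N ch cw q).h (bp N ch cw q).M2 (2 * (bp N ch cw q).M2) v2).filter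
          (fun π => Associated π z)) with hS
  have e2 : (∑ q ∈ B, ∑ y ∈ Y,
      ∑ z₁ ∈ GP ((bp N ch cw q).K / nm y) (2 * (bp N ch cw q).K / nm y),
      ∑ π ∈ GP (bp N ch cw q).P (2 * (bp N ch cw q).P),
        ∑ z ∈ (disc ((bp N ch cw q).N * (bp N ch cw q).T)).filter (On (y * z₁ * π) b),
          EtaN (bp N ch cw q) z) = S.card := by
    rw [hS]
    simp only [card_sigma]
    rfl
  rw [e2]
  -- the facts
  have facts : ∀ x ∈ S, ROK (bp N ch cw x.1) R P₁ L₁ ∧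
      Tup (bp N ch cw x.1) Y b x.2.1 x.2.2.1 x.2.2.2.1 x.2.2.2.2.1 x.2.2.2.2.2.2 ∧
      ⌊(bp N ch cw x.1).h * Real.log (nm x.2.2.2.2.2.2)⌋₊ = x.2.2.2.2.2.1 := by
    rintro ⟨q, y, z₁, π, z, v2, q₂⟩ hx
    rw [hS] at hx
    simp only [mem_sigma, mem_filter] at hx
    obtain ⟨hq, hy, h1, h3, ⟨hz, hOn⟩, hv2, h2, has⟩ := hx
    unfold cell at h2
    rw [mem_filter] at h2
    exact ⟨hR q hq, ⟨hy, h1, h3, h2.1, has, hOn.1, hOn.2⟩, h2.2⟩
  unfold cnt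
  apply card_le_card_of_injOn (fun x => ((x.2.1 * x.2.2.1 * x.2.2.2.1 * x.2.2.2.2.1).re).toNat)
  · intro x hx
    obtain ⟨hRx, t, -⟩ := facts x hx
    obtain ⟨hpr, hle⟩ := tup_facts k b hk (bp N ch cw x.1) R P₁ L₁ Y hY hRx t
    have hre := t.re
    have him := t.im
    set z := x.2.1 * x.2.2.1 * x.2.2.2.1 * x.2.2.2.2.1 with hz
    have hn : z.re = ((z.re.toNat : ℕ) : ℤ) := (Int.toNat_of_nonneg (by omega)).symm
    have hnm : nm z = z.re.toNat ^ 2 + b ^ 2 := nm_re_im him hn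
    rw [mem_coe, mem_filter, mem_Icc]
    change (1 ≤ z.re.toNat ∧ z.re.toNat ≤ ⌊N⌋₊) ∧ PrK k (z.re.toNat ^ 2 + b ^ 2)
    refine ⟨⟨by omega, ?_⟩, by rw [← hnm]; exact hpr⟩
    apply Nat.le_floor
    rw [hnm] at hle
    push_cast at hle
    have hle' : ((z.re.toNat : ℕ) : ℝ) ^ 2 + (b : ℝ) ^ 2 ≤ N ^ 2 := hle
    have h8 : ((z.re.toNat : ℕ) : ℝ) ^ 2 ≤ N ^ 2 := by nlinarith [sq_nonneg (b : ℝ)]
    exact le_of_sq_le_sq h8 hN.le
  · intro x hx x' hx' hxx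
    obtain ⟨hRx, t, f2⟩ := facts x hx
    obtain ⟨hRx', t', f2'⟩ := facts x' hx'
    have hre := t.re
    have hre' := t'.re
    have h9 : (x.2.1 * x.2.2.1 * x.2.2.2.1 * x.2.2.2.2.1).re = (x'.2.1 * x'.2.2.1 * x'.2.2.2.1 * x'.2.2.2.2.1).re := by
      simp only at hxx
      omega
    obtain ⟨a1, a2, a3, a4, a6⟩ := tup_inj (k - 3) b _ _ R P₁ L₁ Y hY hRx hRx' t t' h9
    obtain ⟨⟨i, j⟩, y, z₁, π, z, v2, q₂⟩ := x
    obtain ⟨⟨i', j'⟩, y', z₁', π', z', v2', q₂'⟩ := x'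
    simp only at a1 a2 a3 a4 a6 f2 f2' t t'
    subst a1 a2 a3 a4 a6
    -- the index of the box
    have ej : j = j' := by
      have u1 := (mem_GP.1 t.h3).2.2.2.2
      have u2 := (mem_GP.1 t'.h3).2.2.2.2
      exact dy u1.1 u1.2 u2.1 u2.2
    have ei : i = i' := by
      have u1 := (mem_GP.1 t.h1).2.2.2.2
      have u2 := (mem_GP.1 t'.h1).2.2.2.2
      have hyp : 0 < (nm y : ℝ) := by exact_mod_cast Nat.pos_of_ne_zero (hY.sq y t.hy).ne_zero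
      have v1 : N / 2 ^ i / nm y < (nm z₁ : ℝ) := u1.1
      have v2 : (nm z₁ : ℝ) ≤ 2 * (N / 2 ^ i) / nm y := u1.2
      have v3 : N / 2 ^ i' / nm y < (nm z₁ : ℝ) := u2.1
      have v4 : (nm z₁ : ℝ) ≤ 2 * (N / 2 ^ i') / nm y := u2.2
      have hi : (0 : ℝ) < 2 ^ i := by positivity
      have hi' : (0 : ℝ) < 2 ^ i' := by positivity
      rw [div_lt_iff₀ hyp, div_lt_iff₀ hi] at v1
      rw [div_lt_iff₀ hyp, div_lt_iff₀ hi'] at v3
      rw [le_div_iff₀ hyp] at v2 v4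
      have w2 : (nm z₁ : ℝ) * nm y * 2 ^ i ≤ 2 * N := by
        have := mul_le_mul_of_nonneg_right v2 hi.le
        rwa [mul_assoc 2, div_mul_cancel₀ _ hi.ne'] at this
      have w4 : (nm z₁ : ℝ) * nm y * 2 ^ i' ≤ 2 * N := by
        have := mul_le_mul_of_nonneg_right v4 hi'.le
        rwa [mul_assoc 2, div_mul_cancel₀ _ hi'.ne'] at this
      have hz0 : 0 < (nm z₁ : ℝ) * nm y := by
        by_contra hcon
        push Not at hcon
        have := mul_nonpos_of_nonpos_of_nonneg hcon hi.le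
        linarith
      have c1 : (nm z₁ : ℝ) * nm y * 2 ^ i < (nm z₁ : ℝ) * nm y * 2 ^ (i' + 1) := by
        rw [pow_succ]; nlinarith
      have c2 : (nm z₁ : ℝ) * nm y * 2 ^ i' < (nm z₁ : ℝ) * nm y * 2 ^ (i + 1) := by
        rw [pow_succ]; nlinarith
      have h7 := (pow_lt_pow_iff_right₀ (by norm_num : (1 : ℝ) < 2)).1 (lt_of_mul_lt_mul_left c1 hz0.le)
      have h8 := (pow_lt_pow_iff_right₀ (by norm_num : (1 : ℝ) < 2)).1 (lt_of_mul_lt_mul_left c2 hz0.le)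
      omega
    subst ej ei
    subst f2
    subst f2'
    rfl

end CNBM

open CNBM in
theorem specCNB : SpecCNB := by
  intro k N ch cw R P₁ L₁ z Y b S hk hN hR hY hb hS
  have hY' : YLK (k - 3) R Y := ⟨fun y hy => (hY.sq y hy).1, fun y hy => (hY.sq y hy).2, hY.le, hY.na⟩
  refine rep k b hk N ch cw R P₁ L₁ (by linarith) Y hY' S ?_
  intro q hq
  obtain ⟨h1, h2, h3, h4, h5⟩ := hS q hq
  exact ⟨show (0 : ℝ) ≤ N by linarith, show (0 : ℝ) < 2 ^ q.1 by positivity, show (0 : ℝ) < 2 ^ q.2 by positivity,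
    h1, h2, h3, h4, h5⟩

end Pool.Agent.Lib.MP391708.X3
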