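import Pool.Agent.Lib.MP_391708_nt.MR.Basic
import Pool.Agent.Lib.MP_391708_nt.XP.O.ONE
import Pool.Agent.Lib.MP_391708_nt.X3.SpecO

/-!
# THEOREM X3 (MP_391708), module ONE: one scale

The variance bound and the main term for all the dyadic boxes give `cnt k b N ≥ c gB(b) N log B / (log N)^2` for all but
few `b ∈ (B, 2B]`, `k ≥ 3`.
-/

set_option autoImplicit false

namespace Pool.Agent.Lib.MP391708.X3

open Finset Filter Topology Pool.Agent.Lib.MP391708.MR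
open Pool.Agent.Lib.MP391708.X (ChiG hk Dist Fam rgh VP Ix psi ix1 UOK lc On cnt PrK YOK)
open Pool.Agent.Lib.MP391708.XL (VS PS)
open Pool.Agent.Lib.MP391708.XP (gB IsConst count Q)
open scoped ComplexConjugate

namespace ONEM

lemma ls_sub (p : Par) (ζ : Gi) (b : ℕ) (g g' : Gi → ℂ) :
    ls p ζ b (fun z => g z - g' z) = ls p ζ b g - ls p ζ b g' := by
  unfold ls
  simp only [Finset.sum_sub_distrib]

lemma sy_sub (p : Par) (y : Gi) (b : ℕ) (g g' : Gi → ℂ) :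
    sy p y b (fun z => g z - g' z) = sy p y b g - sy p y b g' := by
  unfold sy
  simp only [ls_sub, Finset.sum_sub_distrib]

/-- the size conditions for a box -/
lemma sizes {δ cP cT cB N T P B : ℝ} (ch cw : ℝ) (hb : Box δ cP cT cB N T P B) (hN : 1 < N)
    (hl : 20 ≤ Real.log N) (hδ : δ ≤ 1 / 100) (hcP : 1 ≤ cP) (hcT : 1 ≤ cT)
    (hL : Real.log N ^ (4 * cP + 1) ≤ N ^ (1 / 20 : ℝ)) :
    (Real.log N ^ (cP / 2) ≤ (par N T P ch cw).P ∧
      2 * (par N T P ch cw).P ≤ N ^ (1 / 10 : ℝ) ∧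
      N ^ (1 / 10 : ℝ) * Real.log N ^ (cP / 2) ≤ (par N T P ch cw).K ∧
      2 * (par N T P ch cw).K ≤ N ∧
      N ≤ (par N T P ch cw).M2) ∧
      2 ≤ (par N T P ch cw).P ∧ 0 < (par N T P ch cw).T ∧ 1 ≤ (par N T P ch cw).K ∧
      (par N T P ch cw).P ^ 2 < (par N T P ch cw).K := by
  obtain ⟨P1, P2, T1, T2, -, -⟩ := hb
  obtain ⟨ℓ, hℓ⟩ : ∃ ℓ, ℓ = Real.log N := ⟨_, rfl⟩
  rw [← hℓ] at P1 P2 T1 hl hL ⊢
  have hN0 : 0 < N := by linarith
  have hN1 : 1 ≤ N := hN.le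
  have hl0 : 0 < ℓ := by linarith
  have hl1 : 1 ≤ ℓ := by linarith
  have e1 : ℓ ≤ ℓ ^ cP := by
    calc ℓ = ℓ ^ (1 : ℝ) := (Real.rpow_one _).symm
      _ ≤ ℓ ^ cP := Real.rpow_le_rpow_of_exponent_le hl1 hcP
  have hP20 : 20 ≤ P := by linarith
  have hP0 : 0 < P := by linarith
  have e2 : ℓ ≤ ℓ ^ cT := by
    calc ℓ = ℓ ^ (1 : ℝ) := (Real.rpow_one _).symm
      _ ≤ ℓ ^ cT := Real.rpow_le_rpow_of_exponent_le hl1 hcT
  have hT16 : 16 * P ≤ T := by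
    have h1 : P * 16 ≤ P * ℓ ^ cT := mul_le_mul_of_nonneg_left (by linarith) hP0.le
    linarith
  have hT0 : 0 < T := by linarith
  have hT : T ≤ N ^ (1 / 100 : ℝ) := T2.trans (Real.rpow_le_rpow_of_exponent_le hN1 hδ)
  have e3 : ℓ ≤ N ^ (1 / 20 : ℝ) := by
    calc ℓ = ℓ ^ (1 : ℝ) := (Real.rpow_one _).symm
      _ ≤ ℓ ^ (4 * cP + 1) := Real.rpow_le_rpow_of_exponent_le hl1 (by linarith)
      _ ≤ _ := hL
  have e4 : ℓ ^ (cP / 2) ≤ N ^ (1 / 20 : ℝ) :=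
    (Real.rpow_le_rpow_of_exponent_le hl1 (by linarith)).trans hL
  have e5 : P * ℓ ≤ N ^ (1 / 20 : ℝ) := by
    calc P * ℓ ≤ ℓ ^ (2 * cP) * ℓ ^ (1 : ℝ) := by
          rw [Real.rpow_one]
          exact mul_le_mul_of_nonneg_right P2 hl0.le
      _ = ℓ ^ (2 * cP + 1) := (Real.rpow_add hl0 _ _).symm
      _ ≤ ℓ ^ (4 * cP + 1) := Real.rpow_le_rpow_of_exponent_le hl1 (by linarith)
      _ ≤ _ := hL
  have n1 : N ^ (1 / 20 : ℝ) ≤ N ^ (1 / 10 : ℝ) :=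
    Real.rpow_le_rpow_of_exponent_le hN1 (by norm_num)
  have pos : ∀ a : ℝ, 0 < N ^ a := fun a => Real.rpow_pos_of_pos hN0 a
  have mul : ∀ a b c : ℝ, a + b = c → N ^ a * N ^ b = N ^ c := fun a b c h => by
    rw [← Real.rpow_add hN0, h]
  have one : N ^ (1 : ℝ) = N := Real.rpow_one N
  refine ⟨⟨?_, ?_, ?_, ?_, ?_⟩, ?_, hT0, ?_, ?_⟩
  · change ℓ ^ (cP / 2) ≤ P
    exact (Real.rpow_le_rpow_of_exponent_le hl1 (by linarith)).trans P1
  · change 2 * P ≤ N ^ (1 / 10 : ℝ)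
    nlinarith
  · change N ^ (1 / 10 : ℝ) * ℓ ^ (cP / 2) ≤ N / T
    rw [le_div_iff₀ hT0]
    calc N ^ (1 / 10 : ℝ) * ℓ ^ (cP / 2) * T
        ≤ N ^ (1 / 10 : ℝ) * N ^ (1 / 20 : ℝ) * N ^ (1 / 100 : ℝ) :=
          mul_le_mul (mul_le_mul_of_nonneg_left e4 (pos _).le) hT hT0.le
            (mul_pos (pos _) (pos _)).le
      _ = N ^ (16 / 100 : ℝ) := by
          rw [mul (1 / 10) (1 / 20) (15 / 100) (by norm_num),
            mul (15 / 100) (1 / 100) (16 / 100) (by norm_num)]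
      _ ≤ N ^ (1 : ℝ) := Real.rpow_le_rpow_of_exponent_le hN1 (by norm_num)
      _ = N := one
  · change 2 * (N / T) ≤ N
    rw [← mul_div_assoc, div_le_iff₀ hT0]
    nlinarith
  · change N ≤ N * T / (8 * P)
    rw [le_div_iff₀ (by positivity)]
    exact mul_le_mul_of_nonneg_left (by linarith) hN0.le
  · change 2 ≤ P
    linarith
  · change 1 ≤ N / T
    rw [le_div_iff₀ hT0, one_mul]
    calc T ≤ N ^ (1 / 100 : ℝ) := hT
      _ ≤ N ^ (1 : ℝ) := Real.rpow_le_rpow_of_exponent_le hN1 (by norm_num)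
      _ = N := one
  · change P ^ 2 < N / T
    rw [lt_div_iff₀ hT0]
    have h1 : P ≤ N ^ (1 / 20 : ℝ) := by nlinarith
    calc P ^ 2 * T ≤ (N ^ (1 / 20 : ℝ) * N ^ (1 / 20 : ℝ)) * N ^ (1 / 100 : ℝ) := by
          rw [pow_two]
          exact mul_le_mul (mul_le_mul h1 h1 hP0.le (pos _).le) hT hT0.le
            (mul_pos (pos _) (pos _)).le
      _ = N ^ (11 / 100 : ℝ) := by
          rw [mul (1 / 20) (1 / 20) (10 / 100) (by norm_num),
            mul (10 / 100) (1 / 100) (11 / 100) (by norm_num)]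
      _ < N ^ (1 : ℝ) := Real.rpow_lt_rpow_of_exponent_lt hN (by norm_num)
      _ = N := one

/-- the lower bound for the main term of a box -/
lemma mlow2 {c₀ cE cw cP V VP' N ℓ lP : ℝ} (hc₀ : 0 < c₀) (hcE : 0 < cE) (hcw : 1 ≤ cw) (hcP : 1 ≤ cP)
    (hN : 0 < N) (hl : 20 ≤ ℓ) (hV : cE / Real.log (ℓ ^ cw + 1) ^ 4 ≤ V) (hVP0 : 0 < VP')
    (hVP1 : VP' ≤ 1) (hlP0 : 0 < lP) (hlP : lP ≤ 2 * cP * Real.log ℓ)
    (hbig : 4 * cP * (cw + 1) ^ 4 * Real.log ℓ ^ 5 ≤ c₀ * cE * ℓ ^ 2) :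
    N / ℓ ^ 5 ≤ c₀ * (V / VP') * (N / (ℓ ^ 2 * lP)) / 2 := by
  refine (XP.ONEM.mlow hc₀ hcE hcw hcP hN hl hV hVP0 hVP1 hlP0 hlP hbig).trans ?_
  have hl0 : 0 < ℓ := by linarith
  have hlw : 0 < ℓ ^ cw := Real.rpow_pos_of_pos hl0 _
  have h4 : 0 < Real.log (ℓ ^ cw + 1) := Real.log_pos (by linarith)
  have hV0 : 0 < V := lt_of_lt_of_le (by positivity) hV
  have h1 : N / (ℓ ^ 3 * lP) ≤ N / (ℓ ^ 2 * lP) := by
    apply div_le_div_of_nonneg_left hN.le (by positivity)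
    apply mul_le_mul_of_nonneg_right _ hlP0.le
    exact pow_le_pow_right₀ (by linarith) (by norm_num)
  have h2 : 0 ≤ c₀ * (V / VP') := by positivity
  have h3 := mul_le_mul_of_nonneg_left h1 h2
  linarith

end ONEM

open ONEM XP.ONEM in
theorem specONE : SpecONEstmt := by
  classical
  intro hVAR hMT hYSET hCNB hCSX hBXC hSSB hLSM k hk A hA
  obtain ⟨cw, aU, aQ, aF, ch1, hcw1, hcw, haU, haQ, haF, hch1, δ1, hδ1, hV⟩ :=
    hVAR (A + 16) (by linarith)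
  obtain ⟨c₀, hc₀, hM⟩ := hMT
  obtain ⟨ch2, δ2, hδ2, hM⟩ := hM cw aU aQ aF hcw1 hcw haU haQ haF
  obtain ⟨ch, hch⟩ : ∃ ch, ch = max ch1 ch2 := ⟨_, rfl⟩
  obtain ⟨δ, hδ⟩ : ∃ δ, δ = min (min δ1 δ2) (1 / 100) := ⟨_, rfl⟩
  have hδ0 : 0 < δ := by rw [hδ]; exact lt_min (lt_min hδ1 hδ2) (by norm_num)
  have hδa : δ ≤ δ1 := by rw [hδ]; exact (min_le_left _ _).trans (min_le_left _ _)
  have hδb : δ ≤ δ2 := by rw [hδ]; exact (min_le_left _ _).trans (min_le_right _ _)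
  have hδc : δ ≤ 1 / 100 := by rw [hδ]; exact min_le_right _ _
  obtain ⟨cP1, hV⟩ := hV ch (by rw [hch]; exact le_max_left _ _) δ hδ0 hδa
  obtain ⟨cP2, hM⟩ := hM ch (by rw [hch]; exact le_max_right _ _) δ hδ0 hδb
  obtain ⟨A', hA', hYS⟩ := hYSET (k - 3) (max cw aQ) (lt_max_of_lt_right (by linarith))
  obtain ⟨cP, hcP⟩ : ∃ cP, cP = max (max cP1 cP2) (2 * A' + 2) := ⟨_, rfl⟩
  have hcP1 : cP1 ≤ cP := by rw [hcP]; exact (le_max_left _ _).trans (le_max_left _ _)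
  have hcP2 : cP2 ≤ cP := by rw [hcP]; exact (le_max_right _ _).trans (le_max_left _ _)
  have hcP3 : 2 * A' + 2 ≤ cP := by rw [hcP]; exact le_max_right _ _
  have hcP4 : 1 ≤ cP := by linarith
  obtain ⟨cT1, hV⟩ := hV cP hcP1
  obtain ⟨cT2, hM⟩ := hM cP hcP2
  obtain ⟨cT, hcT⟩ : ∃ cT, cT = max (max cT1 cT2) 1 := ⟨_, rfl⟩
  have hcT1 : cT1 ≤ cT := by rw [hcT]; exact (le_max_left _ _).trans (le_max_left _ _)
  have hcT2 : cT2 ≤ cT := by rw [hcT]; exact (le_max_right _ _).trans (le_max_left _ _)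
  have hcT3 : 1 ≤ cT := by rw [hcT]; exact le_max_right _ _
  obtain ⟨cB1, hV⟩ := hV cT hcT1
  obtain ⟨cB2, hM⟩ := hM cT hcT2
  obtain ⟨cB, hcB⟩ : ∃ cB, cB = max (max cB1 cB2) 0 := ⟨_, rfl⟩
  have hcB1 : cB1 ≤ cB := by rw [hcB]; exact (le_max_left _ _).trans (le_max_left _ _)
  have hcB2 : cB2 ≤ cB := by rw [hcB]; exact (le_max_right _ _).trans (le_max_left _ _)
  have hcB3 : 0 ≤ cB := by rw [hcB]; exact le_max_right _ _
  have hV := hV cB hcB1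
  have hM := hM cB hcB2
  obtain ⟨c₁, cB', hc₁, hBX⟩ := hBXC δ cP cT cB hδ0 (by linarith) hcP4 (by linarith) hcB3
  obtain ⟨cS, hcS, hSS⟩ := hSSB
  obtain ⟨-, -, -, -, -, cE, hcE, hEE⟩ := hLSM
  refine ⟨c₀ / 2 * cS * c₁, max cB' 0, by positivity, ?_⟩
  have hlog : ∀ᶠ N : ℝ in atTop, 20 ≤ Real.log N :=
    Real.tendsto_log_atTop.eventually (eventually_ge_atTop 20)
  have hL : ∀ᶠ N : ℝ in atTop, Real.log N ^ (4 * cP + 1) ≤ N ^ (1 / 20 : ℝ) := by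
    have h := (isLittleO_log_rpow_rpow_atTop (4 * cP + 1) (by norm_num : (0 : ℝ) < 1 / 20)).bound
      (by norm_num : (0 : ℝ) < 1)
    filter_upwards [h, eventually_ge_atTop 1] with N h1 h2
    rw [one_mul, Real.norm_of_nonneg (Real.rpow_nonneg (Real.log_nonneg h2) _),
      Real.norm_of_nonneg (Real.rpow_nonneg (by linarith) _)] at h1
    exact h1
  have hbig : ∀ᶠ ℓ : ℝ in atTop,
      4 * cP * (cw + 1) ^ 4 * Real.log ℓ ^ 5 ≤ c₀ * cE * ℓ ^ 2 := by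
    have hD : 0 < 4 * cP * (cw + 1) ^ 4 := by positivity
    have h := (isLittleO_log_rpow_rpow_atTop 5 (by norm_num : (0 : ℝ) < 2)).bound
      (show 0 < c₀ * cE / (4 * cP * (cw + 1) ^ 4) by positivity)
    filter_upwards [h, eventually_ge_atTop 1] with ℓ h1 h2
    rw [Real.norm_of_nonneg (Real.rpow_nonneg (Real.log_nonneg h2) _),
      Real.norm_of_nonneg (Real.rpow_nonneg (by linarith) _)] at h1
    have e1 : Real.log ℓ ^ (5 : ℝ) = Real.log ℓ ^ 5 := by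
      exact_mod_cast Real.rpow_natCast (Real.log ℓ) 5
    have e2 : ℓ ^ (2 : ℝ) = ℓ ^ 2 := by
      exact_mod_cast Real.rpow_natCast ℓ 2
    rw [e1, e2, div_mul_eq_mul_div, le_div_iff₀ hD] at h1
    linarith
  filter_upwards [hV, hM, Real.tendsto_log_atTop.eventually hYS, hBX, hlog, hL,
    Real.tendsto_log_atTop.eventually hbig, eventually_ge_atTop 8] with
    N hV hM hYS hBX hl hL hbig hN8 B hB hBN
  obtain ⟨Y, hY, hY1⟩ := hYS
  have hN0 : 0 < N := by linarith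
  have hN1 : 1 < N := by linarith
  obtain ⟨ℓ, hℓ⟩ : ∃ ℓ, ℓ = Real.log N := ⟨_, rfl⟩
  rw [← hℓ] at hY hl hL hB hbig hBX ⊢
  have hl0 : 0 < ℓ := by linarith
  have hl1 : 1 ≤ ℓ := by linarith
  have hB1 : ℓ ^ cB' ≤ B := (Real.rpow_le_rpow_of_exponent_le hl1 (le_max_left _ _)).trans hB
  have hB2 : 1 ≤ B := (Real.one_le_rpow hl1 (le_max_right _ _)).trans hB
  have hB0 : 0 < B := by linarith
  obtain ⟨S, hS, hScard, hSsum⟩ := hBX B hB1 hBN
  -- the sets U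
  have hU : ∀ q : ℕ × ℕ, ∃ U : Finset Ix, q ∈ S →
      UOK (ℓ ^ aQ) (ℓ ^ aF * (N / B)) (ℓ ^ aU) U ∧
      Var (bp N ch cw q) B (fun z => Eta (bp N ch cw q) z - Kap (bp N ch cw q) U z) ≤
        ℓ ^ (-(A + 16)) * (B * (bp N ch cw q).K * (bp N ch cw q).T ^ 2) := by
    intro q
    by_cases hq : q ∈ S
    · obtain ⟨U, h1, h2⟩ := hV (2 ^ q.1) (2 ^ q.2) B (hS q hq)
      rw [← hℓ] at h1 h2
      exact ⟨U, fun _ => ⟨h1, h2⟩⟩
    · exact ⟨∅, fun h => absurd h hq⟩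
  choose U hU using hU
  have hsz := fun q (hq : q ∈ S) => X3.ONEM.sizes ch cw (hS q hq) hN1 (by rw [← hℓ]; exact hl) hδc hcP4
    hcT3 (by rw [← hℓ]; exact hL)
  rw [← hℓ] at hsz
  have hw3 : 3 ≤ ℓ ^ cw := by
    calc (3 : ℝ) ≤ ℓ ^ (1 : ℝ) := by rw [Real.rpow_one]; linarith
      _ ≤ ℓ ^ cw := Real.rpow_le_rpow_of_exponent_le hl1 hcw1
  have hwl : ℓ ≤ ℓ ^ cw := by
    calc ℓ = ℓ ^ (1 : ℝ) := (Real.rpow_one _).symm
      _ ≤ ℓ ^ cw := Real.rpow_le_rpow_of_exponent_le hl1 hcw1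
  refine few (D := fun q b => ∑ y ∈ Y, sy (bp N ch cw q) y b
    (fun z => Eta (bp N ch cw q) z - Kap (bp N ch cw q) (U q) z)) (S := S) hN0 hl hB0.le hScard ?_ ?_
  · intro b hb hbc
    by_contra hno
    push Not at hno
    rw [Finset.mem_Ioc] at hb
    have hbB : B < b := (Nat.floor_lt hB0.le).1 hb.1
    have hbB2 : (b : ℝ) ≤ 2 * B := (Nat.le_floor_iff (by linarith)).1 hb.2
    have hb0 : (0 : ℝ) < b := by linarith
    have hb1 : 1 ≤ b := by exact_mod_cast hb0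
    have hbN : (b : ℝ) ≤ N := by
      have h1 : (b : ℝ) ^ 2 ≤ 8 * N := by nlinarith
      have h2 : 8 * N ≤ N ^ 2 := by nlinarith
      exact le_of_sq_le_sq (h1.trans h2) hN0.le
    have hlb : Real.log b ≤ ℓ ^ cw := by
      refine le_trans ?_ hwl
      rw [hℓ]
      exact Real.log_le_log hb0 hbN
    obtain ⟨hVP0, hVP1, hgB⟩ := hSS b (ℓ ^ cw) hb1 hw3 hlb
    have hVE := (hEE (b : ℤ) (ℓ ^ cw) (by linarith)).1
    obtain ⟨ρ, hρ⟩ : ∃ ρ, ρ = VS b (PS (ℓ ^ cw)) / VP (ℓ ^ cw) := ⟨_, rfl⟩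
    have hρ0 : 0 ≤ ρ := by
      rw [hρ]
      exact div_nonneg (hEE (b : ℤ) (ℓ ^ cw) (by linarith)).2.1.le hVP0.le
    have hc := hCNB k N ch cw (ℓ ^ (cP / 2)) (N ^ (1 / 10 : ℝ)) N (ℓ ^ max cw aQ) Y b S hk
      (by linarith)
      (Real.one_le_rpow hl1 (by linarith))
      ⟨hY.sq, hY.na, fun y hy => (hY.le y hy).trans
        (Real.rpow_le_rpow_of_exponent_le hl1 (by linarith)), hY.rg⟩ hb1
      (fun q hq => (hsz q hq).1)
    have hlP : ∀ q ∈ S, 0 < Real.log ((2 : ℝ) ^ q.2) ∧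
        Real.log ((2 : ℝ) ^ q.2) ≤ 2 * cP * Real.log ℓ := by
      intro q hq
      have h1 : (2 : ℝ) ≤ (2 : ℝ) ^ q.2 := (hsz q hq).2.1
      have h2 : (2 : ℝ) ^ q.2 ≤ ℓ ^ (2 * cP) := by
        have := (hS q hq).P2
        rw [← hℓ] at this
        exact this
      refine ⟨Real.log_pos (by linarith), ?_⟩
      rw [← Real.log_rpow hl0]
      exact Real.log_le_log (by linarith) h2
    have hlow := lower (c := (cnt k b N : ℝ)) (t := N / ℓ ^ 5) (S := S) (Y := Y)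
      (E := fun q y => sy (bp N ch cw q) y b (Eta (bp N ch cw q)))
      (M := fun q y => sy (bp N ch cw q) y b (Kap (bp N ch cw q) (U q)))
      (m := fun q => c₀ * ρ * (N / (ℓ ^ 2 * Real.log ((2 : ℝ) ^ q.2)))) hY1 hc ?_ ?_ ?_ ?_
    · have e1 : ∑ q ∈ S, c₀ * ρ * (N / (ℓ ^ 2 * Real.log ((2 : ℝ) ^ q.2))) / 2 =
          c₀ / 2 * ρ * (N / ℓ ^ 2) * ∑ q ∈ S, 1 / Real.log ((2 : ℝ) ^ q.2) := by
        rw [Finset.mul_sum]
        refine Finset.sum_congr rfl fun q hq => ?_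
        have h1 := (hlP q hq).1
        field_simp
      rw [e1] at hlow
      have hlB : 0 ≤ Real.log B := Real.log_nonneg hB2
      have h2 : c₀ / 2 * ρ * (N / ℓ ^ 2) * (c₁ * Real.log B) ≤ (cnt k b N : ℝ) :=
        (mul_le_mul_of_nonneg_left hSsum (by positivity)).trans hlow
      have h3 : c₀ / 2 * cS * c₁ * gB b * (N * Real.log B / ℓ ^ 2) ≤
          c₀ / 2 * ρ * (N / ℓ ^ 2) * (c₁ * Real.log B) := by
        have e2 : c₀ / 2 * ρ * (N / ℓ ^ 2) * (c₁ * Real.log B) =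
            c₀ / 2 * c₁ * (N * Real.log B / ℓ ^ 2) * ρ := by
          field_simp
        have e3 : c₀ / 2 * cS * c₁ * gB b * (N * Real.log B / ℓ ^ 2) =
            c₀ / 2 * c₁ * (N * Real.log B / ℓ ^ 2) * (cS * gB b) := by ring
        rw [e2, e3]
        exact mul_le_mul_of_nonneg_left (by rw [hρ]; exact hgB) (by positivity)
      exact absurd (lt_of_lt_of_le hbc (h3.trans h2)) (lt_irrefl _)
    · intro q hq
      have h1 := (hlP q hq).1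
      positivity
    · intro q hq
      change N / ℓ ^ 5 ≤ c₀ * ρ * (N / (ℓ ^ 2 * Real.log ((2 : ℝ) ^ q.2))) / 2
      rw [hρ]
      exact mlow2 hc₀ hcE hcw1 hcP4 hN0 hl hVE hVP0 hVP1 (hlP q hq).1 (hlP q hq).2 hbig
    · intro q hq y hy
      have h1 := hM (2 ^ q.1) (2 ^ q.2) B (hS q hq) (U q)
        (by rw [← hℓ]; exact (hU q hq).1) b hbB hbB2 y (prim_of_sq (hY.sq y hy).1)
        (by
          rw [← hℓ]
          exact (hY.le y hy).trans (Real.rpow_le_rpow_of_exponent_le hl1 (by linarith)))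
        (by
          intro π hπ hd
          rw [← hℓ]
          have h := hY.rg y hy π hπ hd
          exact ⟨lt_of_le_of_lt (Real.rpow_le_rpow_of_exponent_le hl1 (le_max_left _ _)) h,
            lt_of_le_of_lt (Real.rpow_le_rpow_of_exponent_le hl1 (le_max_right _ _)) h⟩)
      rw [← hℓ, ← hρ] at h1
      have h2 := (hlP q hq).1
      have h3 : c₀ * ρ * (N / (ℓ ^ 2 * Real.log ((2 : ℝ) ^ q.2))) * (1 / (nm y : ℝ)) =
          c₀ * ρ * (N / (ℓ ^ 2 * Real.log ((2 : ℝ) ^ q.2) * nm y)) := by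
        rw [mul_assoc, div_mul_div_comm, mul_one]
      change c₀ * ρ * (N / (ℓ ^ 2 * Real.log ((2 : ℝ) ^ q.2))) * (1 / (nm y : ℝ)) ≤ _
      rw [h3]
      exact h1
    · intro q hq
      have h1 := hno q hq
      change ‖∑ y ∈ Y, sy (bp N ch cw q) y b
        (fun z => Eta (bp N ch cw q) z - Kap (bp N ch cw q) (U q) z)‖ < N / ℓ ^ 5 at h1
      simp only [X3.ONEM.sy_sub] at h1
      exact h1
  · intro q hq
    obtain ⟨-, g1, g2, g3, g4⟩ := hsz q hq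
    have hYOK : YOK (k - 3) (ℓ ^ max cw aQ) (bp N ch cw q).P Y := by
      refine ⟨hY.sq, hY.na, fun y hy => (hY.le y hy).trans ?_, hY.rg⟩
      have h1 := (hS q hq).P1
      rw [← hℓ] at h1
      exact (Real.rpow_le_rpow_of_exponent_le hl1 (by linarith)).trans h1
    have hcs := hCSX (k - 3) (bp N ch cw q) Y _ B
      (fun z => Eta (bp N ch cw q) z - Kap (bp N ch cw q) (U q) z) g1 g2 g3 g4 hYOK
    refine hcs.trans ?_
    have g3' : 1 ≤ (bp N ch cw q).K := g3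
    have hK0 : 0 ≤ 20 * (bp N ch cw q).K := by linarith
    refine (mul_le_mul_of_nonneg_left (hU q hq).2 hK0).trans (le_of_eq ?_)
    have hT0 : (0 : ℝ) < (2 : ℝ) ^ q.1 := by positivity
    have eK : (bp N ch cw q).K = N / (2 : ℝ) ^ q.1 := rfl
    have eT : (bp N ch cw q).T = (2 : ℝ) ^ q.1 := rfl
    rw [eK, eT]
    field_simp

end Pool.Agent.Lib.MP391708.X3
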